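import Pool.Agent.W719.AX.Ker

/-!
Project AX (helper719), the kernel at real points: the critical point.
-/

set_option autoImplicit false

namespace Pool.Agent.W125.AX

open Finset Filter Topology Metric
open Pool.Agent.W711.HT
open Pool.Agent.W719.AX
open scoped Real

lemma cos_gt {x : ℝ} (h0 : 0 ≤ x) (h1 : x < 2 * π / 3) : -1 / 2 < Real.cos x := by
  have h2 : Real.cos (2 * π / 3) = -1 / 2 := by
    rw [show 2 * π / 3 = π - π / 3 by ring, Real.cos_pi_sub, Real.cos_pi_div_three]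
    norm_num
  rw [← h2]
  exact Real.cos_lt_cos_of_nonneg_of_le_pi h0 (by linarith [Real.pi_pos]) h1

lemma cos_half {ψ : ℝ} (h : |ψ| < 1) : 1 / 2 < Real.cos ψ := by
  have h1 := Real.one_sub_sq_div_two_le_cos (x := ψ)
  have h2 : ψ ^ 2 < 1 := by rw [← sq_abs]; nlinarith [abs_nonneg ψ]
  linarith

lemma arg_pos {δ ψ t : ℝ} (h1 : 3 / 16 ≤ δ) (h2 : δ ≤ 5 / 16) (hψ : |ψ| < 1) (ht : 0 ≤ t)
    (ht' : t ≤ 1) : 0 < 2 * Real.cos ψ + 2 * Real.cos (2 * π * δ * t) := by
  have hpi := Real.pi_pos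
  have h3 := cos_half hψ
  have h4 : 0 ≤ 2 * π * δ * t := by positivity
  have h5 : 2 * π * δ * t < 2 * π / 3 := by
    have : δ * t ≤ 5 / 16 := by nlinarith
    nlinarith
  have h6 := cos_gt h4 h5
  linarith

lemma rr_real {δ ψ : ℝ} (h1 : 3 / 16 ≤ δ) (h2 : δ ≤ 5 / 16) (hψ : |ψ| < 1) :
    (rrF (δ : ℂ) (ψ : ℂ)).im = 0 := by
  have h : rrF (δ : ℂ) (ψ : ℂ) = ((δ * ∫ t in (0:ℝ)..1,
      Real.log (2 * Real.cos ψ + 2 * Real.cos (2 * π * δ * t)) : ℝ) : ℂ) := by
    unfold rrF
    push_cast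
    congr 1
    rw [← intervalIntegral.integral_ofReal]
    apply intervalIntegral.integral_congr
    intro t ht
    rw [Set.uIcc_of_le (by norm_num)] at ht
    simp only
    rw [Complex.ofReal_log (arg_pos h1 h2 hψ ht.1 ht.2).le]
    push_cast
    rfl
  rw [h, Complex.ofReal_im]

lemma ss_real {δ : ℝ} (h1 : 0 ≤ δ) (h2 : δ ≤ 1) : (ssF (δ : ℂ)).im = 0 := by
  have h : ssF (δ : ℂ) = ((δ * ∫ t in (0:ℝ)..1, Real.log (2 * Real.sin (π * δ * t)) : ℝ) : ℂ) := by
    unfold ssF
    push_cast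
    congr 1
    rw [← intervalIntegral.integral_ofReal]
    apply intervalIntegral.integral_congr
    intro t ht
    rw [Set.uIcc_of_le (by norm_num)] at ht
    simp only
    have h3 : 0 ≤ 2 * Real.sin (π * δ * t) := by
      have h4 : 0 ≤ π * δ * t := mul_nonneg (mul_nonneg Real.pi_pos.le h1) ht.1
      have h5 : π * δ * t ≤ π := by
        have : δ * t ≤ 1 := by nlinarith [ht.1, ht.2]
        nlinarith [Real.pi_pos]
      have := Real.sin_nonneg_of_nonneg_of_le_pi h4 h5
      linarith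
    rw [Complex.ofReal_log h3]
    push_cast
    rfl
  rw [h, Complex.ofReal_im]

/-- the critical point is real -/
lemma dl_real {ρ τ κ c : ℝ} {s dl : ℂ → ℂ → ℂ} (H : KD ρ τ κ c s dl) {a b : ℝ} (ha : |a| < ρ)
    (hb : |b| < ρ) : ∃ x : ℝ, dl a b = x ∧ 3 / 16 ≤ x ∧ x ≤ 5 / 16 ∧
      Real.cos (2 * π * x) * (2 + Real.cos a + Real.cos b) = 1 - Real.cos a * Real.cos b := by
  have hpi := Real.pi_pos
  have hρ := H.hρ
  have hτ := H.hτ
  have ha1 : (a : ℂ) ∈ Rc (3 * ρ) (3 * τ) := by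
    unfold Rc
    simp only [Set.mem_setOf_eq, Complex.ofReal_re, Complex.ofReal_im, abs_zero]
    constructor <;> linarith
  have hb1 : (b : ℂ) ∈ Rc (3 * ρ) (3 * τ) := by
    unfold Rc
    simp only [Set.mem_setOf_eq, Complex.ofReal_re, Complex.ofReal_im, abs_zero]
    constructor <;> linarith
  have h1 := H.dclose a ha1 b hb1
  have h2 := H.dcos a ha1 b hb1
  set z := dl a b with hz
  have h3 : |z.re - 1 / 4| ≤ 1 / 16 := by
    have h := Complex.abs_re_le_norm (z - 1 / 4)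
    have e : (z - 1 / 4).re = z.re - 1 / 4 := by
      rw [Complex.sub_re]
      norm_num
    rw [e] at h
    linarith
  obtain ⟨h4, h5⟩ := abs_le.1 h3
  have hden : 0 < 2 + Real.cos a + Real.cos b := by
    have := cos_half (show |a| < 1 by linarith)
    have := cos_half (show |b| < 1 by linarith)
    linarith
  have h6 : Complex.cos (2 * π * z) =
      (((1 - Real.cos a * Real.cos b) / (2 + Real.cos a + Real.cos b) : ℝ) : ℂ) := by
    rw [h2]
    push_cast
    rfl
  have h7 : (2 * π * z : ℂ) = ((2 * π * z.re : ℝ) : ℂ) + ((2 * π * z.im : ℝ) : ℂ) * Complex.I := by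
    conv_lhs => rw [← Complex.re_add_im z]
    push_cast
    ring
  have h8 : Real.sin (2 * π * z.re) * Real.sinh (2 * π * z.im) = 0 := by
    have h9 := congrArg Complex.im h6
    rw [h7, Complex.cos_add_mul_I, ← Complex.ofReal_cos, ← Complex.ofReal_cosh,
      ← Complex.ofReal_sin, ← Complex.ofReal_sinh, Complex.ofReal_im] at h9
    simp only [Complex.sub_im, Complex.mul_im, Complex.mul_re, Complex.ofReal_re,
      Complex.ofReal_im, Complex.I_re, Complex.I_im] at h9
    linarith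
  have h10 : 0 < Real.sin (2 * π * z.re) := by
    apply Real.sin_pos_of_pos_of_lt_pi
    · nlinarith
    · nlinarith
  have h11 : z.im = 0 := by
    rcases mul_eq_zero.1 h8 with h | h
    · linarith
    · rw [Real.sinh_eq_zero] at h
      rcases mul_eq_zero.1 h with h | h
      · linarith
      · exact h
  refine ⟨z.re, ?_, by linarith, by linarith, ?_⟩
  · apply Complex.ext
    · rw [Complex.ofReal_re]
    · rw [Complex.ofReal_im]; exact h11
  · have h12 := congrArg Complex.re h6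
    rw [h7, h11] at h12
    simp only [mul_zero, Complex.ofReal_zero, zero_mul, add_zero] at h12
    rw [← Complex.ofReal_cos, Complex.ofReal_re, Complex.ofReal_re] at h12
    rw [h12]
    field_simp

/-- the critical equation -/
lemma crit_eq {a b x : ℝ} (ha : |a| < 1) (hb : |b| < 1) (h1 : 3 / 16 ≤ x) (h2 : x ≤ 5 / 16)
    (h : Real.cos (2 * π * x) * (2 + Real.cos a + Real.cos b) = 1 - Real.cos a * Real.cos b) :
    Complex.log (2 * Complex.cos a + 2 * Complex.cos (2 * π * x)) +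
      Complex.log (2 * Complex.cos b + 2 * Complex.cos (2 * π * x)) -
      4 * Complex.log (2 * Complex.sin (π * x)) = 0 := by
  have hpi := Real.pi_pos
  have p1 := arg_pos h1 h2 ha zero_le_one le_rfl
  have p2 := arg_pos h1 h2 hb zero_le_one le_rfl
  rw [mul_one] at p1 p2
  have p3 : 0 < Real.sin (π * x) := by
    apply Real.sin_pos_of_pos_of_lt_pi
    · positivity
    · nlinarith
  have e1 : (2 * Complex.cos a + 2 * Complex.cos (2 * π * x) : ℂ) =
      ((2 * Real.cos a + 2 * Real.cos (2 * π * x) : ℝ) : ℂ) := by push_cast; rfl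
  have e2 : (2 * Complex.cos b + 2 * Complex.cos (2 * π * x) : ℂ) =
      ((2 * Real.cos b + 2 * Real.cos (2 * π * x) : ℝ) : ℂ) := by push_cast; rfl
  have e3 : (2 * Complex.sin (π * x) : ℂ) = ((2 * Real.sin (π * x) : ℝ) : ℂ) := by push_cast; rfl
  rw [e1, e2, e3, ← Complex.ofReal_log p1.le, ← Complex.ofReal_log p2.le,
    ← Complex.ofReal_log (by positivity)]
  have e4 : Real.log (2 * Real.cos a + 2 * Real.cos (2 * π * x)) +
      Real.log (2 * Real.cos b + 2 * Real.cos (2 * π * x)) =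
      4 * Real.log (2 * Real.sin (π * x)) := by
    rw [← Real.log_mul p1.ne' p2.ne']
    have e5 : (2 * Real.cos a + 2 * Real.cos (2 * π * x)) *
        (2 * Real.cos b + 2 * Real.cos (2 * π * x)) = (2 * Real.sin (π * x)) ^ 4 := by
      have e6 : Real.cos (2 * π * x) = 1 - 2 * Real.sin (π * x) ^ 2 := by
        rw [show 2 * π * x = 2 * (π * x) by ring, Real.cos_two_mul, Real.cos_sq']
        ring
      have e7 : Real.sin (π * x) ^ 2 = (1 - Real.cos (2 * π * x)) / 2 := by linarith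
      have e8 : (2 * Real.sin (π * x)) ^ 4 = 16 * (Real.sin (π * x) ^ 2) ^ 2 := by ring
      rw [e8, e7]
      linear_combination 4 * h
    rw [e5, Real.log_pow]
    norm_num
  rw [← Complex.ofReal_add, e4]
  push_cast
  ring

/-- the phase -/
noncomputable def Th (p : ℂ × ℂ) (δ : ℂ) : ℂ := rrF δ p.1 + rrF δ p.2 - 4 * ssF δ

/-- its derivative -/
noncomputable def Gd (p : ℂ × ℂ) (δ : ℂ) : ℂ :=
  Complex.log (2 * Complex.cos p.1 + 2 * Complex.cos (2 * π * δ)) +
    Complex.log (2 * Complex.cos p.2 + 2 * Complex.cos (2 * π * δ)) -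
    4 * Complex.log (2 * Complex.sin (π * δ))

/-- one logarithm -/
lemma log_deriv {a x : ℝ} (ha : |a| < 1) (h1 : 3 / 16 ≤ x) (h2 : x ≤ 5 / 16) :
    HasDerivAt (fun δ : ℂ => Complex.log (2 * Complex.cos a + 2 * Complex.cos (2 * π * δ)))
      ((-(4 * π * Real.sin (2 * π * x)) / (2 * Real.cos a + 2 * Real.cos (2 * π * x)) : ℝ) : ℂ)
      (x : ℂ) := by
  have p1 := arg_pos h1 h2 ha zero_le_one le_rfl
  rw [mul_one] at p1
  have e1 : (2 * Complex.cos a + 2 * Complex.cos (2 * π * x) : ℂ) =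
      ((2 * Real.cos a + 2 * Real.cos (2 * π * x) : ℝ) : ℂ) := by push_cast; rfl
  have d1 : HasDerivAt (fun δ : ℂ => 2 * Complex.cos a + 2 * Complex.cos (2 * π * δ))
      (2 * (-Complex.sin (2 * π * x) * (2 * π))) (x : ℂ) := by
    have d2 : HasDerivAt (fun δ : ℂ => 2 * π * δ) (2 * π) (x : ℂ) := by
      simpa using (hasDerivAt_id (x : ℂ)).const_mul (2 * π : ℂ)
    have d3 := d2.ccos
    exact (d3.const_mul 2).const_add _
  have d4 := d1.clog (by rw [e1]; exact Complex.ofReal_mem_slitPlane.2 p1)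
  convert d4 using 1
  rw [e1]
  push_cast
  ring

lemma log_deriv2 {x : ℝ} (h1 : 3 / 16 ≤ x) (h2 : x ≤ 5 / 16) :
    HasDerivAt (fun δ : ℂ => Complex.log (2 * Complex.sin (π * δ)))
      ((π * Real.cos (π * x) / Real.sin (π * x) : ℝ) : ℂ) (x : ℂ) := by
  have hpi := Real.pi_pos
  have p3 : 0 < Real.sin (π * x) := by
    apply Real.sin_pos_of_pos_of_lt_pi
    · positivity
    · nlinarith
  have e3 : (2 * Complex.sin (π * x) : ℂ) = ((2 * Real.sin (π * x) : ℝ) : ℂ) := by push_cast; rfl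
  have d1 : HasDerivAt (fun δ : ℂ => 2 * Complex.sin (π * δ))
      (2 * (Complex.cos (π * x) * π)) (x : ℂ) := by
    have d2 : HasDerivAt (fun δ : ℂ => π * δ) (π : ℂ) (x : ℂ) := by
      simpa using (hasDerivAt_id (x : ℂ)).const_mul (π : ℂ)
    exact d2.csin.const_mul 2
  have d4 := d1.clog (by
    rw [e3]; exact Complex.ofReal_mem_slitPlane.2 (by positivity))
  convert d4 using 1
  rw [e3]
  push_cast
  have : (Complex.sin (π * x) : ℂ) ≠ 0 := by
    rw [← Complex.ofReal_mul, ← Complex.ofReal_sin]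
    exact_mod_cast p3.ne'
  field_simp

/-- the second derivative -/
lemma Gd_deriv {a b x : ℝ} (ha : |a| < 1) (hb : |b| < 1) (h1 : 3 / 16 ≤ x) (h2 : x ≤ 5 / 16) :
    (deriv (Gd ((a : ℂ), (b : ℂ))) (x : ℂ)).re ≤ -1 := by
  have hpi := Real.pi_pos
  have d1 := log_deriv ha h1 h2
  have d2 := log_deriv hb h1 h2
  have d3 := log_deriv2 h1 h2
  have d := (d1.add d2).sub (d3.const_mul 4)
  have hd : deriv (Gd ((a : ℂ), (b : ℂ))) (x : ℂ) = _ := d.deriv
  rw [hd]
  have p1 := arg_pos h1 h2 ha zero_le_one le_rfl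
  have p2 := arg_pos h1 h2 hb zero_le_one le_rfl
  rw [mul_one] at p1 p2
  have p3 : 0 < Real.sin (π * x) := by
    apply Real.sin_pos_of_pos_of_lt_pi
    · positivity
    · nlinarith
  have p4 : 0 < Real.sin (2 * π * x) := by
    apply Real.sin_pos_of_pos_of_lt_pi
    · positivity
    · nlinarith
  have p5 : 1 / 2 ≤ Real.cos (π * x) := by
    rw [← Real.cos_pi_div_three]
    apply Real.cos_le_cos_of_nonneg_of_le_pi (by positivity) (by linarith)
    nlinarith
  have p6 : Real.sin (π * x) ≤ 1 := Real.sin_le_one _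
  have q1 : -(4 * π * Real.sin (2 * π * x)) / (2 * Real.cos a + 2 * Real.cos (2 * π * x)) ≤ 0 :=
    div_nonpos_of_nonpos_of_nonneg (by nlinarith [mul_pos hpi p4]) p1.le
  have q2 : -(4 * π * Real.sin (2 * π * x)) / (2 * Real.cos b + 2 * Real.cos (2 * π * x)) ≤ 0 :=
    div_nonpos_of_nonpos_of_nonneg (by nlinarith [mul_pos hpi p4]) p2.le
  have q3 : π / 2 ≤ π * Real.cos (π * x) / Real.sin (π * x) := by
    rw [le_div_iff₀ p3]
    have r1 : π / 2 * Real.sin (π * x) ≤ π / 2 * 1 := mul_le_mul_of_nonneg_left p6 (by positivity)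
    have r2 : π * (1 / 2) ≤ π * Real.cos (π * x) := mul_le_mul_of_nonneg_left p5 hpi.le
    linarith
  have e : (((-(4 * π * Real.sin (2 * π * x)) / (2 * Real.cos a + 2 * Real.cos (2 * π * x)) : ℝ) : ℂ) +
      ((-(4 * π * Real.sin (2 * π * x)) / (2 * Real.cos b + 2 * Real.cos (2 * π * x)) : ℝ) : ℂ) -
      4 * ((π * Real.cos (π * x) / Real.sin (π * x) : ℝ) : ℂ)) =
      ((-(4 * π * Real.sin (2 * π * x)) / (2 * Real.cos a + 2 * Real.cos (2 * π * x)) +
      -(4 * π * Real.sin (2 * π * x)) / (2 * Real.cos b + 2 * Real.cos (2 * π * x)) -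
      4 * (π * Real.cos (π * x) / Real.sin (π * x)) : ℝ) : ℂ) := by push_cast; rfl
  rw [e, Complex.ofReal_re]
  nlinarith [Real.pi_gt_three]

end Pool.Agent.W125.AX
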