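import Pool.Agent.W125.AX.Prep

/-!
Project AX (helper719): the kernel at real points.
-/

set_option autoImplicit false

namespace Pool.Agent.W125.AX

open Finset Filter Topology Metric
open Pool.Agent.W711.HT
open Pool.Agent.W719.AX
open scoped Real

/-- the summand, from the expansions of its factors -/
lemma T_eq {N : ℕ} (hN : 1 ≤ N) {R R' S rr rr' ss U U' V e1 e2 e3 : ℂ}
    (h1 : R = Complex.exp (N * rr + U + e1)) (h2 : R' = Complex.exp (N * rr' + U' + e2))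
    (h3 : S ^ 2 = N * Complex.exp (2 * N * ss + V + e3)) :
    (N : ℂ) ^ 2 * (R * R' / S ^ 4) =
      Complex.exp (N * (rr + rr' - 4 * ss) + (U + U' - 2 * V) + (e1 + e2 - 2 * e3)) := by
  have hN0 : (N : ℂ) ≠ 0 := by exact_mod_cast (by omega : N ≠ 0)
  have e4 : S ^ 4 = (N : ℂ) ^ 2 * (Complex.exp (2 * N * ss + V + e3)) ^ 2 := by
    calc S ^ 4 = (S ^ 2) ^ 2 := by ring
      _ = _ := by rw [h3]; ring
  have e5 : Complex.exp (N * (rr + rr' - 4 * ss) + (U + U' - 2 * V) + (e1 + e2 - 2 * e3)) *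
      (Complex.exp (2 * N * ss + V + e3)) ^ 2 =
      Complex.exp (N * rr + U + e1) * Complex.exp (N * rr' + U' + e2) := by
    rw [pow_two, ← Complex.exp_add, ← Complex.exp_add, ← Complex.exp_add]
    congr 1
    ring
  have hE : Complex.exp (2 * N * ss + V + e3) ≠ 0 := Complex.exp_ne_zero _
  rw [e4, h1, h2, ← e5]
  field_simp

theorem kxr (h1 : S_EMR) (h2 : S_EMS) (h3 : S_WIN) (h4 : S_RRD) (h5 : S_FARD) : S_KXR := by
  intro ρ τ κ c s dl H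
  obtain ⟨ρR, hρR, hρR', u, u1, u2, u3⟩ := h1
  obtain ⟨ρS, hρS, hρS', v, v1, v2, v3⟩ := h2
  obtain ⟨ρD, hρD, dR, dS, dd, -⟩ := h4
  have hρ := H.hρ
  have hτ := H.hτ
  have hpi := Real.pi_gt_three
  obtain ⟨r0, hr0, r16, rR, rS, rD⟩ : ∃ r0 : ℝ, 0 < r0 ∧ r0 ≤ 1 / 16 ∧ r0 ≤ ρR ∧ r0 ≤ ρS ∧
      r0 ≤ ρD / 2 :=
    ⟨min (min ρR ρS) (min (ρD / 2) (1 / 16)), by positivity,
      (min_le_right _ _).trans (min_le_right _ _), (min_le_left _ _).trans (min_le_left _ _),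
      (min_le_left _ _).trans (min_le_right _ _), (min_le_right _ _).trans (min_le_left _ _)⟩
  obtain ⟨rc, hrc, hcont⟩ := cont_zero H (show 0 < r0 / 4 by positivity)
  obtain ⟨ρ1, hρ1, g1, g2, g3⟩ : ∃ ρ1 : ℝ, 0 < ρ1 ∧ ρ1 ≤ ρ ∧ ρ1 ≤ r0 ∧ ρ1 ≤ rc :=
    ⟨min ρ (min r0 rc), lt_min hρ.1 (lt_min hr0 hrc), min_le_left _ _,
      (min_le_right _ _).trans (min_le_left _ _), (min_le_right _ _).trans (min_le_right _ _)⟩
  -- bounds of the phase
  obtain ⟨BR, hBR⟩ := ((isCompact_closedBall (1 / 4 : ℂ) (ρD / 2)).prod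
    (isCompact_closedBall (0 : ℂ) (ρD / 2))).exists_bound_of_continuousOn
    (dR.continuousOn.mono (Set.prod_mono (closedBall_subset_ball (by linarith))
      (closedBall_subset_ball (by linarith))))
  obtain ⟨BS, hBS⟩ := (isCompact_closedBall (1 / 4 : ℂ) (ρD / 2)).exists_bound_of_continuousOn
    (dS.continuousOn.mono (closedBall_subset_ball (by linarith)))
  obtain ⟨S, hS⟩ : ∃ S : Set (ℂ × ℂ), S = Rl ρ1 ×ˢ Rl ρ1 := ⟨_, rfl⟩
  have hmem : ∀ p ∈ S, (p.1 = ((p.1.re : ℝ) : ℂ) ∧ |p.1.re| < ρ1 ∧ ‖p.1‖ < ρ1) ∧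
      (p.2 = ((p.2.re : ℝ) : ℂ) ∧ |p.2.re| < ρ1 ∧ ‖p.2‖ < ρ1) := by
    intro p hp
    rw [hS] at hp
    exact ⟨real_of_Rl hp.1, real_of_Rl hp.2⟩
  have hball : ∀ (r : ℝ), r0 ≤ r → ∀ z : ℂ, ‖z‖ < ρ1 → z ∈ ball (0 : ℂ) r := by
    intro r hr z hz
    rw [mem_ball_zero_iff]
    linarith
  have hder : ∀ p ∈ S, ∀ δ ∈ ball (1 / 4 : ℂ) ρD, HasDerivAt (Th p) (Gd p δ) δ := by
    intro p hp δ hδ
    obtain ⟨⟨a1, a2, a3⟩, b1, b2, b3⟩ := hmem p hp
    have k1 := (dd δ hδ p.1 (hball ρD (by linarith) _ a3)).1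
    have k2 := (dd δ hδ p.2 (hball ρD (by linarith) _ b3)).1
    have k3 := (dd δ hδ p.2 (hball ρD (by linarith) _ b3)).2.2
    exact (k1.add k2).sub (k3.const_mul 4)
  have hrb : ball (1 / 4 : ℂ) r0 ⊆ ball (1 / 4) ρD := ball_subset_ball (by linarith)
  have hThd : ∀ p ∈ S, DifferentiableOn ℂ (Th p) (ball (1 / 4) r0) := fun p hp δ hδ =>
    ((hder p hp δ (hrb hδ)).differentiableAt).differentiableWithinAt
  have hThB : ∀ p ∈ S, ∀ δ ∈ ball (1 / 4 : ℂ) r0, ‖Th p δ‖ ≤ BR + BR + 4 * BS := by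
    intro p hp δ hδ
    obtain ⟨⟨a1, a2, a3⟩, b1, b2, b3⟩ := hmem p hp
    have hδ' : δ ∈ closedBall (1 / 4 : ℂ) (ρD / 2) :=
      closedBall_subset_closedBall rD (ball_subset_closedBall hδ)
    have m1 : p.1 ∈ closedBall (0 : ℂ) (ρD / 2) := by
      rw [mem_closedBall_zero_iff]; linarith
    have m2 : p.2 ∈ closedBall (0 : ℂ) (ρD / 2) := by
      rw [mem_closedBall_zero_iff]; linarith
    have k1 := hBR (δ, p.1) ⟨hδ', m1⟩
    have k2 := hBR (δ, p.2) ⟨hδ', m2⟩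
    have k3 := hBS δ hδ'
    simp only at k1 k2
    unfold Th
    calc ‖rrF δ p.1 + rrF δ p.2 - 4 * ssF δ‖ ≤ ‖rrF δ p.1 + rrF δ p.2‖ + ‖4 * ssF δ‖ :=
          norm_sub_le _ _
      _ ≤ ‖rrF δ p.1‖ + ‖rrF δ p.2‖ + 4 * ‖ssF δ‖ := by
          refine add_le_add (norm_add_le _ _) ?_
          rw [norm_mul]
          norm_num
      _ ≤ _ := by linarith
  -- the critical point
  obtain ⟨δs, hδs⟩ : ∃ δs : ℂ × ℂ → ℝ, δs = fun p => (dl p.1 p.2).re := ⟨_, rfl⟩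
  have hcrit : ∀ p ∈ S, dl p.1 p.2 = (δs p : ℂ) ∧ |δs p - 1 / 4| ≤ r0 / 4 ∧
      Gd p (δs p) = 0 := by
    intro p hp
    obtain ⟨⟨a1, a2, a3⟩, b1, b2, b3⟩ := hmem p hp
    obtain ⟨x, x1, x2, x3, x4⟩ := dl_real H (a2.trans_le g1) (b2.trans_le g1)
    rw [← a1, ← b1] at x1
    have hx : δs p = x := by
      rw [hδs]
      simp only
      rw [x1, Complex.ofReal_re]
    have k := (hcont p.1 p.2 (a3.trans_le g3) (b3.trans_le g3)).1
    rw [hx]
    refine ⟨x1, ?_, ?_⟩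
    · rw [x1] at k
      have e : ((x : ℂ) - 1 / 4) = ((x - 1 / 4 : ℝ) : ℂ) := by push_cast; rfl
      rw [e, Complex.norm_real, Real.norm_eq_abs] at k
      exact k.le
    · unfold Gd
      rw [a1, b1]
      exact crit_eq (by linarith) (by linarith) x2 x3 x4
  have hdd : ∀ p ∈ S, ∀ x : ℝ, |x - 1 / 4| < r0 →
      (deriv (deriv (Th p)) (x : ℂ)).re ≤ -1 := by
    intro p hp x hx
    obtain ⟨⟨a1, a2, a3⟩, b1, b2, b3⟩ := hmem p hp
    obtain ⟨x1, x2⟩ := abs_lt.1 hx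
    have hxb : (x : ℂ) ∈ ball (1 / 4 : ℂ) ρD := by
      apply hrb
      rw [mem_ball, dist_eq_norm]
      have e : ((x : ℂ) - 1 / 4) = ((x - 1 / 4 : ℝ) : ℂ) := by push_cast; rfl
      rw [e, Complex.norm_real, Real.norm_eq_abs]
      exact hx
    have e1 : deriv (Th p) =ᶠ[𝓝 (x : ℂ)] Gd p :=
      Filter.eventuallyEq_of_mem (isOpen_ball.mem_nhds hxb) fun y hy => (hder p hp y hy).deriv
    rw [e1.deriv_eq]
    have e2 : Gd p = Gd (((p.1.re : ℝ) : ℂ), ((p.2.re : ℝ) : ℂ)) := by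
      congr 1
      exact Prod.ext a1 b1
    rw [e2]
    exact Gd_deriv (by linarith) (by linarith) (by linarith) (by linarith)
  -- the window
  obtain ⟨w, hw⟩ : ∃ w : ℕ → (ℂ × ℂ) × ℂ → ℂ, w = fun k x =>
    u k x.2 x.1.1 + u k x.2 x.1.2 - 2 * v k x.2 := ⟨_, rfl⟩
  obtain ⟨T, hT⟩ : ∃ T : ℕ → ℕ → ℂ × ℂ → ℂ, T = fun (N d : ℕ) (p : ℂ × ℂ) =>
    (N : ℂ) ^ 2 * (Rp N d p.1 * Rp N d p.2 / (Sd N d : ℂ) ^ 4) := ⟨_, rfl⟩
  have hwB : ∀ k, ∃ B' : ℝ, ∀ p ∈ S, ∀ δ ∈ ball (1 / 4 : ℂ) r0, ‖w k (p, δ)‖ ≤ B' := by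
    intro k
    obtain ⟨B1, hB1⟩ := u2 k
    obtain ⟨B2, hB2⟩ := v2 k
    refine ⟨B1 + B1 + 2 * B2, fun p hp δ hδ => ?_⟩
    obtain ⟨⟨a1, a2, a3⟩, b1, b2, b3⟩ := hmem p hp
    have k1 := hB1 δ (ball_subset_ball rR hδ) p.1 (hball _ rR _ a3)
    have k2 := hB1 δ (ball_subset_ball rR hδ) p.2 (hball _ rR _ b3)
    have k3 := hB2 δ (ball_subset_ball rS hδ)
    rw [hw]
    simp only
    calc ‖u k δ p.1 + u k δ p.2 - 2 * v k δ‖ ≤ ‖u k δ p.1 + u k δ p.2‖ + ‖2 * v k δ‖ :=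
          norm_sub_le _ _
      _ ≤ ‖u k δ p.1‖ + ‖u k δ p.2‖ + 2 * ‖v k δ‖ := by
          refine add_le_add (norm_add_le _ _) ?_
          rw [norm_mul]
          norm_num
      _ ≤ _ := by linarith
  obtain ⟨r, hr, hrr, A, hA, hA0⟩ := h3 r0 1 (BR + BR + 4 * BS) hr0 r16 one_pos (ℂ × ℂ) S Th δs w T
    (by
      intro p hp
      obtain ⟨⟨a1, a2, a3⟩, b1, b2, b3⟩ := hmem p hp
      obtain ⟨c1, c2, c3⟩ := hcrit p hp
      refine ⟨hThd p hp, hThB p hp, c2, ?_, ?_, hdd p hp⟩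
      · have hxb : ((δs p : ℝ) : ℂ) ∈ ball (1 / 4 : ℂ) ρD := by
          apply hrb
          rw [mem_ball, dist_eq_norm]
          have e : (((δs p : ℝ) : ℂ) - 1 / 4) = ((δs p - 1 / 4 : ℝ) : ℂ) := by push_cast; rfl
          rw [e, Complex.norm_real, Real.norm_eq_abs]
          linarith
        rw [(hder p hp _ hxb).deriv]
        exact c3
      · intro x hx
        obtain ⟨x1, x2⟩ := abs_lt.1 hx
        unfold Th
        have k1 := rr_real (δ := x) (ψ := p.1.re) (by linarith) (by linarith) (by linarith)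
        have k2 := rr_real (δ := x) (ψ := p.2.re) (by linarith) (by linarith) (by linarith)
        have k3 := ss_real (δ := x) (by linarith) (by linarith)
        rw [← a1] at k1
        rw [← b1] at k2
        rw [Complex.sub_im, Complex.add_im, k1, k2, Complex.mul_im, k3]
        simp)
    (by
      intro k p hp
      obtain ⟨⟨a1, a2, a3⟩, b1, b2, b3⟩ := hmem p hp
      rw [hw]
      exact (((u1 k p.1 (hball _ rR _ a3)).mono (ball_subset_ball rR)).add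
        ((u1 k p.2 (hball _ rR _ b3)).mono (ball_subset_ball rR))).sub
        (((v1 k).mono (ball_subset_ball rS)).const_mul 2))
    hwB
    (by
      intro K
      obtain ⟨Cu, hu⟩ := u3 K
      obtain ⟨Cv, hv⟩ := v3 K
      refine ⟨2 * Cu + 2 * Cv, ?_⟩
      filter_upwards [hu, hv, eventually_ge_atTop 1] with N hu hv hN d hd p hp
      obtain ⟨⟨a1, a2, a3⟩, b1, b2, b3⟩ := hmem p hp
      obtain ⟨e1, f1, k1⟩ := hu d (hd.trans_le rR) p.1 (hball _ rR _ a3)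
      obtain ⟨e2, f2, k2⟩ := hu d (hd.trans_le rR) p.2 (hball _ rR _ b3)
      obtain ⟨e3, f3, k3⟩ := hv d (hd.trans_le rS)
      refine ⟨e1 + e2 - 2 * e3, ?_, ?_⟩
      · calc ‖e1 + e2 - 2 * e3‖ ≤ ‖e1 + e2‖ + ‖2 * e3‖ := norm_sub_le _ _
          _ ≤ ‖e1‖ + ‖e2‖ + 2 * ‖e3‖ := by
              refine add_le_add (norm_add_le _ _) ?_
              rw [norm_mul]
              norm_num
          _ ≤ Cu / (N : ℝ) ^ K + Cu / (N : ℝ) ^ K + 2 * (Cv / (N : ℝ) ^ K) := by linarith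
          _ = _ := by ring
      · rw [hT]
        simp only
        rw [T_eq hN k1 k2 k3, hw]
        unfold Th
        congr 2
        congr 1
        simp only [sub_div, add_div, sum_sub_distrib, sum_add_distrib, mul_div_assoc, mul_sum])
  obtain ⟨κf, hκf, hfar⟩ := far_part h5 hr
  obtain ⟨rc2, hrc2, hcont2⟩ := cont_zero H hκf
  obtain ⟨ρ2, hρ2, l1, l2⟩ : ∃ ρ2 : ℝ, 0 < ρ2 ∧ ρ2 ≤ ρ1 ∧ ρ2 ≤ rc2 :=
    ⟨min ρ1 rc2, lt_min hρ1 hrc2, min_le_left _ _, min_le_right _ _⟩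
  have hSS : Rl ρ2 ×ˢ Rl ρ2 ⊆ S := by
    rw [hS]
    intro p hp
    exact ⟨⟨lt_of_lt_of_le hp.1.1 l1, hp.1.2⟩, ⟨lt_of_lt_of_le hp.2.1 l1, hp.2.2⟩⟩
  obtain ⟨B', hB'⟩ := hwB 0
  obtain ⟨M, hM, hM0⟩ : ∃ M : ℝ, 32 * (BR + BR + 4 * BS) / r0 ^ 2 ≤ M ∧ 0 < M :=
    ⟨max (32 * (BR + BR + 4 * BS) / r0 ^ 2) 1, le_max_left _ _,
      lt_of_lt_of_le one_pos (le_max_right _ _)⟩
  refine ⟨ρ2, hρ2, l1.trans g1, A, Real.exp (-B') * (2 * π / M) ^ (1 / 2 : ℝ), by positivity,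
    ?_, ?_⟩
  · intro K
    obtain ⟨C, hC⟩ := hA K
    refine ⟨C + 1, ?_⟩
    filter_upwards [hC, hfar, pow_exp hκf K, eventually_ge_atTop 1] with N n1 n2 n3 n4 p hp
    have hpS := hSS hp
    obtain ⟨⟨a1, a2, a3⟩, b1, b2, b3⟩ := hmem p hpS
    have a4 := (real_of_Rl hp.1).2.2
    have b4 := (real_of_Rl hp.2).2.2
    obtain ⟨c1, c2, c3⟩ := hcrit p hpS
    have m1 : p.1 ∈ Rc (3 * ρ) (3 * τ) := by
      refine ⟨by linarith, ?_⟩
      have : p.1.im = 0 := hp.1.2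
      rw [this, abs_zero]; linarith
    have m2 : p.2 ∈ Rc (3 * ρ) (3 * τ) := by
      refine ⟨by linarith, ?_⟩
      have : p.2.im = 0 := hp.2.2
      rw [this, abs_zero]; linarith
    have hq : s p.1 p.2 = Th p (δs p) := by
      rw [H.scrit p.1 m1 p.2 m2, c1]
      rfl
    rw [kx_split s n4 p _ hq r]
    have k1 := n1 p hpS
    rw [hT] at k1
    simp only at k1
    have hre : 2 * bet - κf ≤ (Th p (δs p)).re := by
      rw [← hq]
      have k := (hcont2 p.1 p.2 (a4.trans_le l2) (b4.trans_le l2)).2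
      have k2 := (Complex.abs_re_le_norm (s p.1 p.2 - ((2 * bet : ℝ) : ℂ))).trans k.le
      rw [Complex.sub_re, Complex.ofReal_re] at k2
      linarith [(abs_le.1 k2).1]
    have k2 := kx_far (κ := κf) n4 (r := r) hre
      (fun d => Rp N d p.1 * Rp N d p.2 / (Sd N d : ℂ) ^ 4) (by
        intro d hd hdr
        have := n2 p.1.re p.2.re (by linarith) (by linarith) d hd hdr
        rw [← a1, ← b1] at this
        exact this)
    have hN0 : (0 : ℝ) < N := by exact_mod_cast n4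
    have e : (C + 1) / (N : ℝ) ^ K = C / (N : ℝ) ^ K + 1 / (N : ℝ) ^ K := by ring
    rw [e]
    rw [add_sub_right_comm]
    refine (norm_add_le _ _).trans (add_le_add k1 (k2.trans n3))
  · intro p hp
    have hpS := hSS hp
    obtain ⟨c1, c2, c3⟩ := hcrit p hpS
    rw [hA0 p hpS, norm_mul]
    have hδb : ((δs p : ℝ) : ℂ) ∈ ball (1 / 4 : ℂ) r0 := by
      rw [mem_ball, dist_eq_norm]
      have e : (((δs p : ℝ) : ℂ) - 1 / 4) = ((δs p - 1 / 4 : ℝ) : ℂ) := by push_cast; rfl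
      rw [e, Complex.norm_real, Real.norm_eq_abs]
      linarith
    have k1 : Real.exp (-B') ≤ ‖Complex.exp (w 0 (p, (δs p : ℂ)))‖ := by
      rw [Complex.norm_exp]
      apply Real.exp_le_exp.2
      have := (Complex.abs_re_le_norm _).trans (hB' p hpS _ hδb)
      linarith [(abs_le.1 this).1]
    have k2 := cauchy2 (z := ((δs p : ℝ) : ℂ)) hr0 (hThd p hpS) (hThB p hpS) (by
      have e : (((δs p : ℝ) : ℂ) - 1 / 4) = ((δs p - 1 / 4 : ℝ) : ℂ) := by push_cast; rfl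
      rw [e, Complex.norm_real, Real.norm_eq_abs]
      exact c2)
    have k3 := hdd p hpS (δs p) (by linarith)
    set D := deriv (deriv (Th p)) ((δs p : ℝ) : ℂ) with hD
    have hD0 : 0 < ‖D‖ := by
      have := (Complex.abs_re_le_norm D)
      have h6 : 1 ≤ |D.re| := by rw [le_abs]; right; linarith
      linarith
    have k4 : (2 * π / M) ^ (1 / 2 : ℝ) ≤ ‖(2 * (π : ℂ) / (-D)) ^ (1 / 2 : ℂ)‖ := by
      have e : (1 / 2 : ℂ) = (((1 / 2 : ℝ)) : ℂ) := by push_cast; rfl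
      rw [e, Complex.norm_cpow_real, norm_div, norm_neg, norm_mul, Complex.norm_real]
      have e2 : ‖(2 : ℂ)‖ * ‖π‖ = 2 * π := by
        rw [Real.norm_eq_abs, abs_of_pos (by linarith)]
        norm_num
      rw [e2]
      apply Real.rpow_le_rpow (by positivity) _ (by norm_num)
      apply div_le_div_of_nonneg_left (by positivity) hD0 (k2.trans hM)
    exact mul_le_mul k1 k4 (by positivity) (norm_nonneg _)

end Pool.Agent.W125.AX
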