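import Pool.Agent.W125.AX.Crit

/-!
Project AX (helper719), the kernel at real points: auxiliary facts.
-/

set_option autoImplicit false

namespace Pool.Agent.W125.AX

open Finset Filter Topology Metric
open Pool.Agent.W711.HT
open Pool.Agent.W719.AX
open scoped Real

lemma open_Rc (a b : ℝ) : IsOpen (Rc a b) := by
  have h : Rc a b = {z : ℂ | |z.re| < a} ∩ {z : ℂ | |z.im| < b} := by
    ext z; rfl
  rw [h]
  exact (isOpen_lt (continuous_abs.comp Complex.continuous_re) continuous_const).inter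
    (isOpen_lt (continuous_abs.comp Complex.continuous_im) continuous_const)

lemma real_of_Rl {r : ℝ} {z : ℂ} (h : z ∈ Rl r) : z = ((z.re : ℝ) : ℂ) ∧ |z.re| < r ∧ ‖z‖ < r := by
  have h1 : |z.re| < r := h.1
  have h2 : z.im = 0 := h.2
  have h3 : z = ((z.re : ℝ) : ℂ) := by
    apply Complex.ext
    · rw [Complex.ofReal_re]
    · rw [Complex.ofReal_im]; exact h2
  refine ⟨h3, h1, ?_⟩
  rw [h3, Complex.norm_real]
  exact h1

/-- continuity at the origin -/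
lemma cont_zero {ρ τ κ c : ℝ} {s dl : ℂ → ℂ → ℂ} (H : KD ρ τ κ c s dl) {ε : ℝ} (hε : 0 < ε) :
    ∃ r : ℝ, 0 < r ∧ ∀ z z' : ℂ, ‖z‖ < r → ‖z'‖ < r →
      ‖dl z z' - 1 / 4‖ < ε ∧ ‖s z z' - ((2 * bet : ℝ) : ℂ)‖ < ε := by
  have hρ := H.hρ
  have hτ := H.hτ
  have hO : IsOpen (Rc (3 * ρ) (3 * τ) ×ˢ Rc (3 * ρ) (3 * τ)) := (open_Rc _ _).prod (open_Rc _ _)
  have h0 : ((0 : ℂ), (0 : ℂ)) ∈ Rc (3 * ρ) (3 * τ) ×ˢ Rc (3 * ρ) (3 * τ) := by
    have : (0 : ℂ) ∈ Rc (3 * ρ) (3 * τ) := by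
      constructor
      · simpa using hρ.1
      · simpa using hτ.1
    exact ⟨this, this⟩
  have c1 := (H.dan.differentiableAt (hO.mem_nhds h0)).continuousAt
  have c2 := (H.san.differentiableAt (hO.mem_nhds h0)).continuousAt
  obtain ⟨r1, hr1, k1⟩ := Metric.continuousAt_iff.1 c1 ε hε
  obtain ⟨r2, hr2, k2⟩ := Metric.continuousAt_iff.1 c2 ε hε
  refine ⟨min r1 r2, lt_min hr1 hr2, fun z z' hz hz' => ?_⟩
  have hd : ∀ r, min r1 r2 ≤ r → dist (z, z') ((0 : ℂ), (0 : ℂ)) < r := by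
    intro r hr
    rw [Prod.dist_eq, dist_zero_right, dist_zero_right]
    exact max_lt (hz.trans_le hr) (hz'.trans_le hr)
  have g1 := k1 (hd r1 (min_le_left _ _))
  have g2 := k2 (hd r2 (min_le_right _ _))
  simp only at g1 g2
  rw [H.dl0, dist_eq_norm] at g1
  rw [H.zero, dist_eq_norm] at g2
  exact ⟨g1, g2⟩

/-- Cauchy estimate of the second derivative -/
lemma cauchy2 {f : ℂ → ℂ} {c z : ℂ} {r B : ℝ} (hr : 0 < r) (hd : DifferentiableOn ℂ f (ball c r))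
    (hB : ∀ w ∈ ball c r, ‖f w‖ ≤ B) (hz : ‖z - c‖ ≤ r / 4) :
    ‖deriv (deriv f) z‖ ≤ 32 * B / r ^ 2 := by
  have h1 : ∀ w ∈ ball c (3 * r / 4), ‖deriv f w‖ ≤ B / (r / 8) := by
    intro w hw
    rw [mem_ball, dist_eq_norm] at hw
    have hsub : closedBall w (r / 8) ⊆ ball c r := by
      intro x hx
      rw [mem_closedBall, dist_eq_norm] at hx
      rw [mem_ball, dist_eq_norm]
      calc ‖x - c‖ = ‖(x - w) + (w - c)‖ := by congr 1; ring
        _ ≤ ‖x - w‖ + ‖w - c‖ := norm_add_le _ _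
        _ < r := by linarith
    apply Complex.norm_deriv_le_of_forall_mem_sphere_norm_le (by positivity)
    · apply DifferentiableOn.diffContOnCl
      rw [closure_ball _ (by positivity)]
      exact hd.mono hsub
    · intro x hx
      exact hB x (hsub (sphere_subset_closedBall hx))
  have h2 : DifferentiableOn ℂ (deriv f) (ball c r) := hd.deriv isOpen_ball
  have hsub : closedBall z (r / 4) ⊆ ball c (3 * r / 4) := by
    intro x hx
    rw [mem_closedBall, dist_eq_norm] at hx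
    rw [mem_ball, dist_eq_norm]
    calc ‖x - c‖ = ‖(x - z) + (z - c)‖ := by congr 1; ring
      _ ≤ ‖x - z‖ + ‖z - c‖ := norm_add_le _ _
      _ < 3 * r / 4 := by linarith
  have h3 : ‖deriv (deriv f) z‖ ≤ (B / (r / 8)) / (r / 4) := by
    apply Complex.norm_deriv_le_of_forall_mem_sphere_norm_le (by positivity)
    · apply DifferentiableOn.diffContOnCl
      rw [closure_ball _ (by positivity)]
      exact h2.mono (hsub.trans (ball_subset_ball (by linarith)))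
    · intro x hx
      exact h1 x (hsub (sphere_subset_closedBall hx))
  refine h3.trans (le_of_eq ?_)
  field_simp
  ring

/-- the far part -/
lemma far_part (h5 : S_FARD) {r : ℝ} (hr : 0 < r) : ∃ κ : ℝ, 0 < κ ∧ ∀ᶠ N : ℕ in atTop,
    ∀ a b : ℝ, |a| ≤ π → |b| ≤ π → ∀ d : ℕ, d < N → ¬ |(d : ℝ) / N - 1 / 4| < r →
    ‖Rp N d a * Rp N d b / (Sd N d : ℂ) ^ 4‖ ≤ Real.exp (N * (2 * bet - 2 * κ)) := by
  obtain ⟨κ, hκ, τ, hτ, h⟩ := h5 r hr
  refine ⟨κ, hκ, ?_⟩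
  filter_upwards [h] with N hN a b ha hb d hd hdr
  have hr' : r ≤ |(d : ℝ) / N - 1 / 4| := not_lt.1 hdr
  have k1 := hN d hd hr' a 0 ha (by rw [abs_zero]; exact hτ.le)
  have k2 := hN d hd hr' b 0 hb (by rw [abs_zero]; exact hτ.le)
  simp only [Complex.ofReal_zero, zero_mul, add_zero] at k1 k2
  by_cases hS : Sd N d = 0
  · rw [hS]
    simp only [Complex.ofReal_zero, ne_eq, OfNat.ofNat_ne_zero, not_false_eq_true, zero_pow,
      div_zero, norm_zero]
    positivity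
  · have hS4 : 0 < Sd N d ^ 4 := by positivity
    rw [norm_div, norm_mul, norm_pow, Complex.norm_real, Real.norm_eq_abs]
    have e0 : |Sd N d| ^ 4 = Sd N d ^ 4 := by
      rw [show (4 : ℕ) = 2 * 2 by norm_num, pow_mul, pow_mul, sq_abs]
    rw [e0, div_le_iff₀ hS4]
    calc ‖Rp N d a‖ * ‖Rp N d b‖ ≤ (Sd N d ^ 2 * Real.exp (N * (bet - κ))) *
          (Sd N d ^ 2 * Real.exp (N * (bet - κ))) := by gcongr
      _ = Real.exp (N * (bet - κ) + N * (bet - κ)) * Sd N d ^ 4 := by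
          rw [Real.exp_add]; ring
      _ = _ := by
          congr 2; ring

/-- powers against exponentials -/
lemma pow_exp {κ : ℝ} (hκ : 0 < κ) (K : ℕ) : ∀ᶠ N : ℕ in atTop,
    (N : ℝ) ^ 3 * Real.exp (-(N * κ)) ≤ 1 / (N : ℝ) ^ K := by
  have h1 : Tendsto (fun x : ℝ => x ^ (K + 3) * Real.exp (-x)) atTop (𝓝 0) :=
    Real.tendsto_pow_mul_exp_neg_atTop_nhds_zero (K + 3)
  have h2 : Tendsto (fun N : ℕ => (N : ℝ) * κ) atTop atTop :=
    Tendsto.atTop_mul_const hκ tendsto_natCast_atTop_atTop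
  have h3 := (h1.comp h2).eventually (gt_mem_nhds (show (0 : ℝ) < κ ^ (K + 3) by positivity))
  filter_upwards [h3, eventually_ge_atTop 1] with N hN hN1
  have hN0 : (0 : ℝ) < N := by exact_mod_cast hN1
  simp only [Function.comp_apply] at hN
  rw [le_div_iff₀ (by positivity)]
  have e : ((N : ℝ) * κ) ^ (K + 3) * Real.exp (-(N * κ)) =
      κ ^ (K + 3) * ((N : ℝ) ^ 3 * Real.exp (-(N * κ)) * (N : ℝ) ^ K) := by
    rw [mul_pow, pow_add (N : ℝ)]
    ring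
  rw [e] at hN
  have h5 : 0 < κ ^ (K + 3) := by positivity
  nlinarith

/-- the decomposition of the kernel -/
lemma kx_split (s : ℂ → ℂ → ℂ) {N : ℕ} (hN : 1 ≤ N) (p : ℂ × ℂ) (q : ℂ) (hq : s p.1 p.2 = q)
    (r : ℝ) : kx s N p =
    ((Real.sqrt N : ℝ) : ℂ)⁻¹ * Complex.exp (-(N * q)) *
      ∑ d ∈ (range N).filter (fun d : ℕ => |(d : ℝ) / N - 1 / 4| < r),
        (N : ℂ) ^ 2 * (Rp N d p.1 * Rp N d p.2 / (Sd N d : ℂ) ^ 4) +
    ((Real.sqrt N) ^ 3 : ℝ) * Complex.exp (-(N * q)) *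
      ∑ d ∈ (range N).filter (fun d : ℕ => ¬ |(d : ℝ) / N - 1 / 4| < r),
        Rp N d p.1 * Rp N d p.2 / (Sd N d : ℂ) ^ 4 := by
  have hN0 : (0 : ℝ) < N := by exact_mod_cast hN
  unfold kx Pool.Agent.W711.HT.ker
  rw [hq, ← sum_filter_add_sum_filter_not (range N) (fun d : ℕ => |(d : ℝ) / N - 1 / 4| < r),
    mul_add]
  congr 1
  rw [← mul_sum]
  have e1 : (((Real.sqrt N) ^ 3 : ℝ) : ℂ) = ((Real.sqrt N : ℝ) : ℂ)⁻¹ * (N : ℂ) ^ 2 := by
    have h1 : (Real.sqrt N) ^ 3 = (Real.sqrt N)⁻¹ * (N : ℝ) ^ 2 := by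
      have h2 := Real.sq_sqrt hN0.le
      have h3 : 0 < Real.sqrt N := Real.sqrt_pos.2 hN0
      rw [eq_inv_mul_iff_mul_eq₀ h3.ne']
      calc Real.sqrt N * Real.sqrt N ^ 3 = (Real.sqrt N ^ 2) ^ 2 := by ring
        _ = (N : ℝ) ^ 2 := by rw [h2]
    rw [h1]
    push_cast
    rfl
  rw [e1]
  ring

/-- bound of the far part of the kernel -/
lemma kx_far {κ : ℝ} {N : ℕ} (hN : 1 ≤ N) {q : ℂ} {r : ℝ} (hq : 2 * bet - κ ≤ q.re)
    (f : ℕ → ℂ) (hf : ∀ d : ℕ, d < N → ¬ |(d : ℝ) / N - 1 / 4| < r →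
      ‖f d‖ ≤ Real.exp (N * (2 * bet - 2 * κ))) :
    ‖((Real.sqrt N) ^ 3 : ℝ) * Complex.exp (-(N * q)) *
      ∑ d ∈ (range N).filter (fun d : ℕ => ¬ |(d : ℝ) / N - 1 / 4| < r), f d‖ ≤
      (N : ℝ) ^ 3 * Real.exp (-(N * κ)) := by
  have hN0 : (0 : ℝ) < N := by exact_mod_cast hN
  have hN1 : (1 : ℝ) ≤ N := by exact_mod_cast hN
  have h1 : ‖∑ d ∈ (range N).filter (fun d : ℕ => ¬ |(d : ℝ) / N - 1 / 4| < r), f d‖ ≤
      N * Real.exp (N * (2 * bet - 2 * κ)) := by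
    refine (norm_sum_le _ _).trans ?_
    have h2 : ∑ d ∈ (range N).filter (fun d : ℕ => ¬ |(d : ℝ) / N - 1 / 4| < r), ‖f d‖ ≤
        (((range N).filter (fun d : ℕ => ¬ |(d : ℝ) / N - 1 / 4| < r)).card : ℝ) *
          Real.exp (N * (2 * bet - 2 * κ)) := by
      rw [← nsmul_eq_mul]
      refine sum_le_card_nsmul _ _ _ fun d hd => ?_
      rw [mem_filter, mem_range] at hd
      exact hf d hd.1 hd.2
    refine h2.trans (mul_le_mul_of_nonneg_right ?_ (Real.exp_pos _).le)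
    have : ((range N).filter (fun d : ℕ => ¬ |(d : ℝ) / N - 1 / 4| < r)).card ≤ N := by
      refine (card_filter_le _ _).trans ?_
      rw [card_range]
    exact_mod_cast this
  have h3 : (Real.sqrt N) ^ 3 ≤ (N : ℝ) ^ 2 := by
    have h4 := Real.sq_sqrt hN0.le
    have h5 : 1 ≤ Real.sqrt N := by
      rw [show (1 : ℝ) = Real.sqrt 1 by simp]
      exact Real.sqrt_le_sqrt hN1
    calc (Real.sqrt N) ^ 3 ≤ (Real.sqrt N) ^ 4 := pow_le_pow_right₀ h5 (by norm_num)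
      _ = (Real.sqrt N ^ 2) ^ 2 := by ring
      _ = (N : ℝ) ^ 2 := by rw [h4]
  have h6 : ‖Complex.exp (-(N * q))‖ ≤ Real.exp (-(N * (2 * bet - κ))) := by
    rw [Complex.norm_exp]
    apply Real.exp_le_exp.2
    have : (-(N * q) : ℂ).re = -(N * q.re) := by
      rw [Complex.neg_re, ← Complex.ofReal_natCast, Complex.re_ofReal_mul]
    rw [this]
    have := mul_le_mul_of_nonneg_left hq hN0.le
    linarith
  rw [norm_mul, norm_mul, Complex.norm_real, Real.norm_eq_abs, abs_of_nonneg (by positivity)]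
  calc (Real.sqrt N) ^ 3 * ‖Complex.exp (-(N * q))‖ * _ ≤
      (N : ℝ) ^ 2 * Real.exp (-(N * (2 * bet - κ))) * (N * Real.exp (N * (2 * bet - 2 * κ))) := by
        gcongr
    _ = (N : ℝ) ^ 3 * (Real.exp (-(N * (2 * bet - κ))) * Real.exp (N * (2 * bet - 2 * κ))) := by
        ring
    _ = _ := by
        rw [← Real.exp_add]
        congr 2
        ring

end Pool.Agent.W125.AX
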